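import Pool.Agent.Helper13.ML.DefsC
import Pool.Agent.Helper97.LN.CLS
import Pool.Agent.Helper45.HG.Sel

/-!
# Project ML, block SEL: finitely many elements with valuations divisible by `ℓ`, modulo `ℓ`-th
powers
-/

set_option autoImplicit false

namespace Pool.Agent.ML

open NumberField IsDedekindDomain WithZero
open Pool.Agent.HG (Pr nm exists_reps mem_of_embeddings exists_prime)
open Pool.Agent.LN (sel_n val_ne)

/-- the elements of `L` with valuations divisible by `n` at the primes which do not divide `M`, modulo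
`n`-th powers -/
theorem selL_n (L : Type) [Field L] [NumberField L] {n : ℕ} (hn : 0 < n) (M : ℕ) (hM : M ≠ 0) :
    ∃ F : Finset L, (∀ e ∈ F, e ≠ 0) ∧ ∀ z : L, z ≠ 0 →
      (∀ v : Pr L, (M : 𝓞 L) ∉ v.asIdeal → (n : ℤ) ∣ log (v.valuation L z)) →
      ∃ e ∈ F, ∃ d : L, z = e * d ^ n := by
  classical
  have : NeZero n := ⟨hn.ne'⟩
  obtain ⟨F, hF0, hF⟩ := sel_n L hn
  have hM0 : (Ideal.span {(M : 𝓞 L)}) ≠ 0 := by
    rw [Ne, Ideal.zero_eq_bot, Ideal.span_singleton_eq_bot]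
    exact_mod_cast hM
  have hTfin : {v : Pr L | v.asIdeal ∣ Ideal.span {(M : 𝓞 L)}}.Finite := Ideal.finite_factors hM0
  obtain ⟨T, hT⟩ : ∃ T : Set (Pr L), T = {v : Pr L | v.asIdeal ∣ Ideal.span {(M : 𝓞 L)}} := ⟨_, rfl⟩
  have hTf : Finite T := by rw [hT]; exact hTfin
  have hmemT : ∀ v : Pr L, v ∉ T → (M : 𝓞 L) ∉ v.asIdeal := by
    intro v hv h
    apply hv
    rw [hT]
    exact (Ideal.dvd_span_singleton).2 h
  obtain ⟨R, hRS, hR⟩ := exists_reps {z : L | z ≠ 0 ∧ ∀ v : Pr L, (M : 𝓞 L) ∉ v.asIdeal →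
    (n : ℤ) ∣ log (v.valuation L z)} (fun z => fun v : T => ((log ((v : Pr L).valuation L z) : ℤ) : ZMod n))
  refine ⟨Finset.image₂ (fun y e => y * e) R F, ?_, ?_⟩
  · intro w hw
    obtain ⟨y, hy, e, he, rfl⟩ := Finset.mem_image₂.1 hw
    exact mul_ne_zero (hRS y hy).1 (hF0 e he)
  · intro z hz hzM
    obtain ⟨y, hyR, hy⟩ := hR z ⟨hz, hzM⟩
    obtain ⟨hy0, hyM⟩ := hRS y hyR
    obtain ⟨e, he, d, hd⟩ := hF (z / y) (div_ne_zero hz hy0) (by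
      intro v
      rw [map_div₀, log_div (val_ne v hz) (val_ne v hy0)]
      by_cases hv : v ∈ T
      · exact (ZMod.intCast_eq_intCast_iff_dvd_sub _ _ _).1 (congrFun hy ⟨v, hv⟩)
      · exact dvd_sub (hzM v (hmemT v hv)) (hyM v (hmemT v hv)))
    refine ⟨y * e, Finset.mem_image₂.2 ⟨y, hyR, e, he, rfl⟩, d, ?_⟩
    rw [mul_assoc, ← hd, mul_div_cancel₀ _ hy0]

theorem sel : StmtSel := by
  classical
  intro ℓ hℓ k L _ _ _ _ _ E M hM
  have hℓ0 : 0 < ℓ := hℓ.pos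
  have hne : NeZero ℓ := ⟨hℓ0.ne'⟩
  have hfdL : FiniteDimensional k L := inferInstance
  obtain ⟨F, hF0, hF⟩ := selL_n L hℓ0 M hM
  -- step 1
  obtain ⟨S, hS⟩ : ∃ S : Set L, ∀ z : L, z ∈ S ↔ z ∈ E ∧ z ≠ 0 ∧ ∀ (p : ℕ) (P : Pr L), p.Prime →
      ¬ p ∣ M → (p : 𝓞 L) ∈ P.asIdeal → Vz P p ℓ 0 z := ⟨{z | _}, fun z => Iff.rfl⟩
  have hSF : ∀ z : S, ∃ (e : F) (d : L), (z : L) = (e : L) * d ^ ℓ := by
    rintro ⟨z, hz⟩
    obtain ⟨-, hz0, hev⟩ := (hS z).1 hz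
    obtain ⟨e, he, d, hd⟩ := hF z hz0 (by
      intro v hv
      obtain ⟨p, hp, hpv⟩ := exists_prime v
      have hpM : ¬ p ∣ M := by
        rintro ⟨q, rfl⟩
        apply hv
        push_cast
        exact Ideal.mul_mem_right _ _ hpv
      obtain ⟨a, ha⟩ := hev p v hp hpM hpv
      have hp0 : (p : L) ≠ 0 := by exact_mod_cast hp.ne_zero
      rw [sub_zero, map_mul, map_zpow₀] at ha
      have h1 := congrArg log ha
      rw [log_mul (val_ne v hz0) (zpow_ne_zero _ (val_ne v hp0)), log_zpow, log_one] at h1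
      refine ⟨-(a * log (v.valuation L (p : L))), ?_⟩
      rw [smul_eq_mul] at h1
      linear_combination h1)
    exact ⟨⟨e, he⟩, d, hd⟩
  choose e d hed using hSF
  obtain ⟨R₁, -, hR₁⟩ := exists_reps (Set.univ : Set S) e
  -- step 2
  obtain ⟨K, hK⟩ : ∃ K : Set L, ∀ g : L, g ∈ K ↔ g ^ ℓ ∈ E ∧ g ≠ 0 := ⟨{g | _}, fun g => Iff.rfl⟩
  have hfdE : FiniteDimensional E L := inferInstance
  have hφ : ∀ (φ : L →ₐ[E] AlgebraicClosure L) (g : K), (φ g / algebraMap L (AlgebraicClosure L) g) ^ ℓ = 1 := by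
    intro φ g
    have hg := (hK _).1 g.2
    have h4 : φ (algebraMap E L ⟨(g : L) ^ ℓ, hg.1⟩) = algebraMap E (AlgebraicClosure L) ⟨(g : L) ^ ℓ, hg.1⟩ :=
      φ.commutes _
    have h5 : φ ((g : L) ^ ℓ) = algebraMap L (AlgebraicClosure L) ((g : L) ^ ℓ) := h4
    rw [div_pow, ← map_pow, ← map_pow, h5, div_self]
    exact (map_ne_zero _).2 (pow_ne_zero _ hg.2)
  have hfin : Finite {ζ : AlgebraicClosure L // ζ ^ ℓ = 1} := by
    have h1 : {ζ : AlgebraicClosure L | ζ ^ ℓ = 1}.Finite := by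
      have h2 := (Polynomial.nthRoots ℓ (1 : AlgebraicClosure L)).toFinset.finite_toSet
      refine h2.subset fun ζ hζ => ?_
      rw [Finset.mem_coe, Multiset.mem_toFinset, Polynomial.mem_nthRoots hℓ0]
      exact hζ
    exact h1
  obtain ⟨R₂, -, hR₂⟩ := exists_reps (Set.univ : Set K) (fun g => fun φ : L →ₐ[E] AlgebraicClosure L =>
    (⟨φ g / algebraMap L (AlgebraicClosure L) g, hφ φ g⟩ : {ζ : AlgebraicClosure L // ζ ^ ℓ = 1}))
  refine ⟨Finset.image₂ (fun (z : S) (g : K) => (z : L) * (g : L) ^ ℓ) R₁ R₂, ?_, ?_⟩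
  · intro w hw
    obtain ⟨z, -, g, hg, rfl⟩ := Finset.mem_image₂.1 hw
    have hz := (hS _).1 z.2
    have hg' := (hK _).1 g.2
    exact ⟨mul_mem hz.1 hg'.1, mul_ne_zero hz.2.1 (pow_ne_zero ℓ hg'.2)⟩
  · intro z hzE hz0 hev
    have hzS : z ∈ S := (hS z).2 ⟨hzE, hz0, hev⟩
    obtain ⟨z₁, hz₁R, hz₁⟩ := hR₁ ⟨z, hzS⟩ trivial
    have h1 := hed z₁
    have h2 := hed ⟨z, hzS⟩
    rw [hz₁] at h1
    have hz₁S := (hS _).1 z₁.2
    have he0 : ((e ⟨z, hzS⟩ : F) : L) ≠ 0 := hF0 _ (e ⟨z, hzS⟩).2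
    have hd1 : d z₁ ≠ 0 := by
      intro h
      apply hz₁S.2.1
      rw [h1, h, zero_pow hℓ0.ne', mul_zero]
    have hd2 : d ⟨z, hzS⟩ ≠ 0 := by
      intro h
      apply hz0
      have h3 : z = ((e ⟨z, hzS⟩ : F) : L) * d ⟨z, hzS⟩ ^ ℓ := h2
      rw [h3, h, zero_pow hℓ0.ne', mul_zero]
    obtain ⟨g, hg⟩ : ∃ g : L, g = d ⟨z, hzS⟩ / d z₁ := ⟨_, rfl⟩
    have hzg : z = (z₁ : L) * g ^ ℓ := by
      have h3 : z = ((e ⟨z, hzS⟩ : F) : L) * d ⟨z, hzS⟩ ^ ℓ := h2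
      rw [hg, div_pow, h1, ← mul_div_assoc, eq_div_iff (pow_ne_zero ℓ hd1)]
      linear_combination (d z₁ ^ ℓ) * h3
    have hgK : g ∈ K := by
      refine (hK g).2 ⟨?_, ?_⟩
      · have h3 : g ^ ℓ = z / (z₁ : L) := by
          rw [eq_div_iff hz₁S.2.1, mul_comm, ← hzg]
        rw [h3]
        exact div_mem hzE hz₁S.1
      · rw [hg]
        exact div_ne_zero hd2 hd1
    obtain ⟨g₀, hg₀R, hg₀⟩ := hR₂ ⟨g, hgK⟩ trivial
    have hg₀K := (hK _).1 g₀.2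
    have hgK' := (hK _).1 hgK
    obtain ⟨b, hb⟩ := mem_of_embeddings (E := E) (g / (g₀ : L)) (by
      intro φ
      have h3 : φ (g₀ : L) / algebraMap L (AlgebraicClosure L) g₀ = φ g / algebraMap L (AlgebraicClosure L) g :=
        congrArg Subtype.val (congrFun hg₀ φ)
      have h4 : algebraMap L (AlgebraicClosure L) (g₀ : L) ≠ 0 := (map_ne_zero _).2 hg₀K.2
      have h5 : algebraMap L (AlgebraicClosure L) g ≠ 0 := (map_ne_zero _).2 hgK'.2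
      have h6 : φ (g₀ : L) ≠ 0 := (map_ne_zero _).2 hg₀K.2
      rw [map_div₀, map_div₀, div_eq_div_iff h6 h4]
      rw [div_eq_div_iff h4 h5] at h3
      linear_combination -h3)
    refine ⟨(z₁ : L) * (g₀ : L) ^ ℓ, Finset.mem_image₂.2 ⟨z₁, hz₁R, g₀, hg₀R, rfl⟩, (b : L), b.2, ?_⟩
    have h3 : (b : L) = g / g₀ := hb
    rw [h3, hzg, div_pow, mul_assoc, mul_div_cancel₀ _ (pow_ne_zero ℓ hg₀K.2)]

end Pool.Agent.ML
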